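import Mathlib

open Set Finset

namespace Pool.Agent.Results.MP_8a6196_an.No

section defs
variable {E : Type} [NormedAddCommGroup E] [NormedSpace ℝ E]

/-- the free Banach lattice norm of a function on the dual (possibly infinite) -/
noncomputable def nrm (f : StrongDual ℝ E → ℝ) : ENNReal :=
  ⨆ (m : ℕ) (x : Fin m → StrongDual ℝ E) (_ : ∀ v : E, ‖v‖ ≤ 1 → ∑ i, |x i v| ≤ 1),
    ENNReal.ofReal (∑ i, |f (x i)|)

/-- the vector sublattice generated by the evaluations -/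
inductive Lat : (StrongDual ℝ E → ℝ) → Prop
  | delta (v : E) : Lat fun x => x v
  | add {f g} : Lat f → Lat g → Lat (f + g)
  | smul (c : ℝ) {f} : Lat f → Lat (c • f)
  | sup {f g} : Lat f → Lat g → Lat (f ⊔ g)
  | inf {f g} : Lat f → Lat g → Lat (f ⊓ g)

variable (E) in
/-- the free Banach lattice over `E` -/
def FBL : Set (StrongDual ℝ E → ℝ) :=
  {f | (∀ t : ℝ, 0 ≤ t → ∀ x, f (t • x) = t * f x) ∧ nrm f < ⊤ ∧
    ∀ ε : ℝ, 0 < ε → ∃ g, Lat g ∧ nrm (f - g) < ENNReal.ofReal ε}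

variable (E) in
/-- the norm of the free Banach lattice over `E` is octahedral -/
def Octahedral : Prop :=
  ∀ Y : Submodule ℝ (StrongDual ℝ E → ℝ), FiniteDimensional ℝ Y → (Y : Set _) ⊆ FBL E →
    ∀ ε : ℝ, 0 < ε → ∃ y ∈ FBL E, nrm y = 1 ∧ ∀ z ∈ Y, ∀ c : ℝ,
      ENNReal.ofReal (1 - ε) * (nrm z + ENNReal.ofReal |c|) ≤ nrm (z + c • y)

theorem le_nrm (f : StrongDual ℝ E → ℝ) {m : ℕ} (x : Fin m → StrongDual ℝ E)
    (h : ∀ v : E, ‖v‖ ≤ 1 → ∑ i, |x i v| ≤ 1) : ENNReal.ofReal (∑ i, |f (x i)|) ≤ nrm f :=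
  le_iSup_of_le m (le_iSup_of_le x (le_iSup_of_le h le_rfl))

/-- the peak function -/
noncomputable def pk (u v : E) : StrongDual ℝ E → ℝ := fun x => max (x u - 20 * |x v|) 0

theorem lat_pk (u v : E) : Lat (pk u v) := by
  have := (Lat.add (.delta u) (.smul (-20) (.sup (.delta v) (.delta (-v))))).sup (.delta 0)
  convert this using 1
  ext x
  simp [pk, abs_eq_max_neg, sub_eq_add_neg]

theorem pk_mem (u v : E) (hu : ‖u‖ ≤ 1) (hv : ‖v‖ ≤ 1) :
    ∀ z ∈ Submodule.span ℝ {pk u v, pk v u}, z ∈ FBL E := by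
  intro z hz
  obtain ⟨a, b, rfl⟩ := Submodule.mem_span_pair.1 hz
  have h1 : ∀ u v : E, ∀ t : ℝ, 0 ≤ t → ∀ x, pk u v (t • x) = t * pk u v x := fun u v t ht x => by
    simp only [pk, _root_.smul_apply, smul_eq_mul, abs_mul, abs_of_nonneg ht,
      mul_max_of_nonneg _ _ ht]
    congr 1 <;> ring
  have h2 : ∀ u v : E, ∀ x, |pk u v x| ≤ |x u| := fun u v x => by
    rw [pk, abs_of_nonneg (le_max_right _ _)]
    exact max_le (by linarith [le_abs_self (x u), abs_nonneg (x v)]) (abs_nonneg _)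
  refine ⟨fun t ht x => ?_, lt_of_le_of_lt ?_ (ENNReal.ofReal_lt_top (r := |a| + |b|)),
    fun ε hε => ⟨_, ((lat_pk u v).smul a).add ((lat_pk v u).smul b), by simpa [nrm] using hε⟩⟩
  · simp only [Pi.add_apply, Pi.smul_apply, smul_eq_mul, h1 _ _ t ht]; ring
  · refine iSup_le fun m => iSup_le fun x => iSup_le fun hx => ENNReal.ofReal_le_ofReal ?_
    calc _ ≤ ∑ i, (|a| * |x i u| + |b| * |x i v|) := sum_le_sum fun i _ => by
          refine (abs_add_le _ _).trans ?_
          simp only [Pi.smul_apply, smul_eq_mul, abs_mul]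
          exact add_le_add (mul_le_mul_of_nonneg_left (h2 _ _ _) (abs_nonneg _))
            (mul_le_mul_of_nonneg_left (h2 _ _ _) (abs_nonneg _))
      _ ≤ _ := by
          rw [sum_add_distrib, ← mul_sum, ← mul_sum]
          exact add_le_add (mul_le_of_le_one_right (abs_nonneg _) (hx u hu))
            (mul_le_of_le_one_right (abs_nonneg _) (hx v hv))

theorem key (u v : E) (h1 : ∀ c s : ℝ, c ^ 2 + s ^ 2 ≤ 1 → ‖c • u + s • v‖ ≤ 1)
    (y : StrongDual ℝ E → ℝ) (hy : nrm y = 1) (hy' : ∀ x, |y x| ≤ |x u| + |x v|)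
    (h : ENNReal.ofReal (199 / 100) ≤ nrm (pk u v + y)) :
    ∃ x : StrongDual ℝ E, 20 * |x v| < x u ∧ 4 / 5 * x u ≤ |y x| := by
  by_contra! hc
  refine absurd h (not_le.2 (lt_of_le_of_lt ?_
    ((ENNReal.ofReal_lt_ofReal_iff (by norm_num)).2 (show (497 / 250 : ℝ) < _ by norm_num))))
  refine iSup_le fun m => iSup_le fun x => iSup_le fun hx => ENNReal.ofReal_le_ofReal ?_
  have a1 : ∑ i, |x i u| ≤ 1 := hx u (by simpa using h1 1 0 (by norm_num))
  have a2 := hx _ (h1 (24 / 25) (7 / 25) (by norm_num))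
  have a3 := hx _ (h1 (24 / 25) (-7 / 25) (by norm_num))
  have a4 : ∑ i, |y (x i)| ≤ 1 := ENNReal.ofReal_le_one.1 (hy ▸ le_nrm y x hx)
  have a5 : ∀ i ∈ (univ : Finset (Fin m)), |(pk u v + y) (x i)| ≤
      79 / 100 * |y (x i)| + 56 / 125 * |x i u| +
        3 / 8 * |x i ((24 / 25 : ℝ) • u + (7 / 25 : ℝ) • v)| +
        3 / 8 * |x i ((24 / 25 : ℝ) • u + (-7 / 25 : ℝ) • v)| := fun i _ => by
    simp only [map_add, map_smul, smul_eq_mul, Pi.add_apply, pk]
    have b1 := hy' (x i)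
    have b2 := hc (x i)
    generalize x i u = a at *
    generalize x i v = b at *
    generalize y (x i) = w at *
    have c1 := le_abs_self (24 / 25 * a + 7 / 25 * b)
    have c2 := le_abs_self (24 / 25 * a + -7 / 25 * b)
    have c3 := neg_le_abs (24 / 25 * a + 7 / 25 * b)
    have c4 := neg_le_abs (24 / 25 * a + -7 / 25 * b)
    rcases lt_or_ge (20 * |b|) a with g | g
    · have := b2 g
      have g' : 0 < a := lt_of_le_of_lt (by positivity) g
      rw [max_eq_left (by linarith), abs_of_pos g']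
      refine (abs_add_le _ _).trans ?_
      rw [abs_of_nonneg (by linarith)]
      linarith [abs_nonneg b]
    · rw [max_eq_right (by linarith), zero_add]
      rcases abs_cases b with g' | g' <;> linarith [abs_nonneg a, g'.1]
  have := sum_le_sum a5
  simp only [sum_add_distrib, ← mul_sum] at this
  linarith

end defs

theorem result : ¬ Octahedral (EuclideanSpace ℝ (Fin 2)) := by
  intro h
  set u : EuclideanSpace ℝ (Fin 2) := EuclideanSpace.single 0 1 with hu
  set v : EuclideanSpace ℝ (Fin 2) := EuclideanSpace.single 1 1 with hv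
  have hd : ∀ w : EuclideanSpace ℝ (Fin 2), w = w 0 • u + w 1 • v := fun w => by
    ext i; fin_cases i <;> simp [hu, hv]
  have hn : ∀ w : EuclideanSpace ℝ (Fin 2), ‖w‖ ≤ 1 ↔ w 0 ^ 2 + w 1 ^ 2 ≤ 1 := fun w => by
    rw [← sq_le_one_iff₀ (norm_nonneg _), EuclideanSpace.real_norm_sq_eq, Fin.sum_univ_two]
  have h1 : ∀ c s : ℝ, c ^ 2 + s ^ 2 ≤ 1 → ‖c • u + s • v‖ ≤ 1 := fun c s h => by
    rw [hn]; simpa [hu, hv] using h
  have h2 : ∀ c s : ℝ, c ^ 2 + s ^ 2 ≤ 1 → ‖c • v + s • u‖ ≤ 1 := fun c s h => by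
    rw [add_comm]; exact h1 s c (by linarith)
  obtain ⟨y, ⟨hp, -⟩, hy, H⟩ := h (Submodule.span ℝ {pk u v, pk v u})
    (FiniteDimensional.span_of_finite ℝ (toFinite _))
    (pk_mem u v (by simp [hu]) (by simp [hv])) (1 / 200) (by norm_num)
  have hx : ∀ (x : StrongDual ℝ (EuclideanSpace ℝ (Fin 2))) w,
      x w = w 0 * x u + w 1 * x v := fun x w => by
    conv_lhs => rw [hd w]
    simp
  have hab : ∀ w : EuclideanSpace ℝ (Fin 2), ‖w‖ ≤ 1 → |w 0| ≤ 1 ∧ |w 1| ≤ 1 := fun w hw =>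
    ⟨(PiLp.norm_apply_le w 0).trans hw, (PiLp.norm_apply_le w 1).trans hw⟩
  have hy' : ∀ x, |y x| ≤ |x u| + |x v| := fun x => by
    refine le_of_forall_pos_le_add fun d hd => ?_
    have hs : 0 < |x u| + |x v| + d := by positivity
    have := le_nrm y (fun _ : Fin 1 => (|x u| + |x v| + d)⁻¹ • x) fun w hw => by
      simp only [Fin.sum_univ_one, _root_.smul_apply, smul_eq_mul, abs_mul,
        abs_of_pos (inv_pos.2 hs)]
      rw [inv_mul_le_iff₀ hs, hx]
      refine (abs_add_le _ _).trans ?_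
      rw [abs_mul, abs_mul]
      nlinarith [hab w hw, abs_nonneg (x u), abs_nonneg (x v)]
    rw [hy, ENNReal.ofReal_le_one] at this
    simp only [Fin.sum_univ_one, hp _ (inv_pos.2 hs).le, abs_mul,
      abs_of_pos (inv_pos.2 hs)] at this
    rwa [inv_mul_le_iff₀ hs, mul_one] at this
  have hl : ∀ z ∈ Submodule.span ℝ {pk u v, pk v u}, 1 ≤ nrm z →
      ENNReal.ofReal (199 / 100) ≤ nrm (z + y) := fun z hz h => by
    have := H z hz 1
    rw [one_smul, abs_one] at this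
    rw [← ENNReal.ofReal_one] at h
    refine le_trans ?_ ((mul_le_mul_right (add_le_add_left h _) _).trans this)
    rw [← ENNReal.ofReal_add zero_le_one zero_le_one, ← ENNReal.ofReal_mul (by norm_num)]
    norm_num
  obtain ⟨p, p1, p2⟩ := key u v h1 y hy hy' (hl _ (Submodule.subset_span (by simp)) (by
    simpa [pk, hu, hv] using le_nrm (pk u v) (fun _ : Fin 1 => EuclideanSpace.proj 0)
      fun w hw => by simpa using (hab w hw).1))
  obtain ⟨q, q1, q2⟩ := key v u h2 y hy (fun x => add_comm |x u| _ ▸ hy' x)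
    (hl _ (Submodule.subset_span (by simp)) (by
      simpa [pk, hu, hv] using le_nrm (pk v u) (fun _ : Fin 1 => EuclideanSpace.proj 1)
        fun w hw => by simpa using (hab w hw).2))
  have p0 : 0 < p u := lt_of_le_of_lt (by positivity) p1
  have q0 : 0 < q v := lt_of_le_of_lt (by positivity) q1
  have p3 : 0 < 2 / 3 / p u := by positivity
  have q3 : 0 < 2 / 3 / q v := by positivity
  have := le_nrm y ![(2 / 3 / p u) • p, (2 / 3 / q v) • q] fun w hw => by
    simp only [Fin.sum_univ_two, Matrix.cons_val_zero, Matrix.cons_val_one,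
      _root_.smul_apply, smul_eq_mul, abs_mul, abs_of_pos p3, abs_of_pos q3]
    have e1 : 2 / 3 / p u * |p w| ≤ 2 / 3 * (|w 0| + |w 1| / 20) := by
      rw [div_mul_eq_mul_div, div_le_iff₀ p0, hx p w]
      have := abs_add_le (w 0 * p u) (w 1 * p v)
      rw [abs_mul, abs_mul, abs_of_pos p0] at this
      nlinarith [abs_nonneg (w 1)]
    have e2 : 2 / 3 / q v * |q w| ≤ 2 / 3 * (|w 1| + |w 0| / 20) := by
      rw [div_mul_eq_mul_div, div_le_iff₀ q0, hx q w]
      have := abs_add_le (w 0 * q u) (w 1 * q v)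
      rw [abs_mul, abs_mul, abs_of_pos q0] at this
      nlinarith [abs_nonneg (w 0)]
    have e3 := (hn w).1 hw
    rw [← sq_abs (w 0), ← sq_abs (w 1)] at e3
    nlinarith [sq_nonneg (|w 0| - 7 / 10), sq_nonneg (|w 1| - 7 / 10)]
  rw [hy, ENNReal.ofReal_le_one] at this
  simp only [Fin.sum_univ_two, Matrix.cons_val_zero, Matrix.cons_val_one, hp _ p3.le, hp _ q3.le,
    abs_mul, abs_of_pos p3, abs_of_pos q3] at this
  have e1 : 8 / 15 ≤ 2 / 3 / p u * |y p| := by
    rw [div_mul_eq_mul_div, le_div_iff₀ p0]; linarith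
  have e2 : 8 / 15 ≤ 2 / 3 / q v * |y q| := by
    rw [div_mul_eq_mul_div, le_div_iff₀ q0]; linarith
  linarith

end Pool.Agent.Results.MP_8a6196_an.No
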